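import Mathlib
import Pool.Graph.R_pool_sql_team_39128cda.H.MP_8dd142_lc.C
import Pool.Graph.R_seed8.Helper639.ForceCH

/-!
# MP_849e4d_lc: finitely generated Tukey reductions are consistently not characterised by
`U <_T [𝔠]^{<ω}`

First part: some notion of forcing preserves `ω₁` and forces Jensen's principle `◊` (the forcing
language is the one of `Pool.Agent.Helper639.ForceCH`).
Second part: `◊` gives a nonprincipal ultrafilter `U` on `ω` with `U <_T [𝔠]^{<ω}` which does not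
have finitely generated Tukey reductions. So the equivalence of Q1 is not a theorem of ZFC.
-/

set_option autoImplicit false

namespace Pool.Agent.Results.MP_849e4d_lc.ConsistentlyNotCharacterised

open Set Cardinal Order
open Pool.Agent.Helper639.ForceCH (Om OmegaOnePreserved DiamondHolds)

/-- `C` is a closed unbounded subset of `ω₁` (the sentence named by `IsClubName`). -/
def IsClubSet (C : Om → Prop) : Prop :=
  (∀ a : Om, ∃ b : Om, a < b ∧ C b) ∧
    ∀ a : Om, (∃ b, b < a) → (∀ b : Om, b < a → ∃ c : Om, (b < c ∧ c < a) ∧ C c) → C a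

/-- Jensen's principle `◊`: the sentence which `DiamondHolds P` says is forced, evaluated in the
universe. -/
def Diamond : Prop :=
  ∃ A : Om → Om → Prop, ∀ S : Om → Prop, ∀ C : Om → Prop,
    IsClubSet C → ∃ a : Om, C a ∧ ∀ b : Om, b < a → (S b ↔ A a b)

/-- `C` is a cofinal subset of the preorder `r`. -/
def Cofinal {α : Type} (r : α → α → Prop) (C : Set α) : Prop := ∀ a, ∃ c ∈ C, r a c

/-- `s ≤_T r`: some map sends cofinal subsets of `r` to cofinal subsets of `s`. -/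
def TukeyLE {α β : Type} (s : β → β → Prop) (r : α → α → Prop) : Prop :=
  ∃ f : α → β, ∀ C : Set α, Cofinal r C → Cofinal s (f '' C)

/-- The order of `U`: `B` is above `A` if `A ⊇ B`. -/
def Incl (U : Ultrafilter ℕ) (A B : {A : Set ℕ // A ∈ U}) : Prop := A.1 ⊇ B.1

/-- The finite subsets of a set of size continuum, ordered by inclusion. -/
def FinIncl (A B : Finset ℝ) : Prop := A ⊆ B

/-- A cofinal subset of the ultrafilter `U`. -/
def IsCofinalSubset (U : Ultrafilter ℕ) (C : Set (Set ℕ)) : Prop :=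
  (∀ X ∈ C, X ∈ U) ∧ ∀ X ∈ U, ∃ Y ∈ C, Y ⊆ X

/-- `f` is a monotone cofinal map from `U` to `V`. -/
def IsMonotoneCofinal (U V : Ultrafilter ℕ) (f : Set ℕ → Set ℕ) : Prop :=
  (∀ X ∈ U, f X ∈ V) ∧ (∀ X ∈ U, ∀ Y ∈ U, Y ⊆ X → f Y ⊆ f X) ∧
    ∀ C, IsCofinalSubset U C → IsCofinalSubset V (f '' C)

/-- `U` has finitely generated Tukey reductions. -/
def FinitelyGenerated (U : Ultrafilter ℕ) : Prop :=
  ∀ (V : Ultrafilter ℕ) (f : Set ℕ → Set ℕ), IsMonotoneCofinal U V f →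
    ∃ C, IsCofinalSubset U C ∧ ∃ g : Finset ℕ → Finset ℕ, (∀ s t, s ⊆ t → g s ⊆ g t) ∧
      ∀ X ∈ C, f X = {m | ∃ (k : ℕ) (s : Finset ℕ), (s : Set ℕ) = X ∩ Iio k ∧ m ∈ g s}

theorem dia_of_diamond (h : Diamond) : Pool.Agent.H.MP_2e4b78_lc.Dia := by
  obtain ⟨A, hA⟩ := h
  have key : ∀ o : Ordinal.{0}, o = (ℵ₁ : Cardinal.{0}).ord → ∀ (_ : NoMaxOrder o.ToType),
      (∃ A : o.ToType → o.ToType → Prop, ∀ S : o.ToType → Prop, ∀ C : o.ToType → Prop,
        ((∀ a : o.ToType, ∃ b : o.ToType, a < b ∧ C b) ∧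
          ∀ a : o.ToType, (∃ b, b < a) →
            (∀ b : o.ToType, b < a → ∃ c : o.ToType, (b < c ∧ c < a) ∧ C c) → C a) →
          ∃ a : o.ToType, C a ∧ ∀ b : o.ToType, b < a → (S b ↔ A a b)) →
      ∃ D : o.ToType → Set o.ToType, ∀ Y : Set o.ToType,
        IsStationary {δ | Y ∩ Iio δ = D δ} := by
    intro o _ _ ⟨A, hA⟩
    refine ⟨fun a => {b | b < a ∧ A a b}, fun Y C hC => ?_⟩
    have c1 : ∀ a : o.ToType, ∃ b : o.ToType, a < b ∧ b ∈ C := fun a => by
      obtain ⟨a', ha'⟩ := exists_gt a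
      obtain ⟨b, hb, hb'⟩ := hC.isCofinal a'
      exact ⟨b, ha'.trans_le hb', hb⟩
    have c2 : ∀ a : o.ToType, (∃ b, b < a) →
        (∀ b : o.ToType, b < a → ∃ c : o.ToType, (b < c ∧ c < a) ∧ c ∈ C) → a ∈ C := by
      intro a h3 h4
      obtain ⟨b0, hb0⟩ := h3
      obtain ⟨c0, hc0, hc0'⟩ := h4 b0 hb0
      refine hC.isLUB_mem (t := {c | c ∈ C ∧ c < a}) (fun c hc => hc.1) ⟨c0, hc0', hc0.2⟩
        ⟨fun c hc => hc.2.le, fun b hb => ?_⟩
      by_contra h5
      obtain ⟨c, hc, hc'⟩ := h4 b (not_le.1 h5)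
      exact absurd (hb ⟨hc', hc.2⟩) (not_le.2 hc.1)
    obtain ⟨a, h1, h2⟩ := hA (fun b => b ∈ Y) (fun b => b ∈ C) ⟨c1, c2⟩
    refine ⟨a, ?_, h1⟩
    ext b
    simp only [mem_inter_iff, mem_Iio, Set.mem_ofPred_eq]
    exact ⟨fun h => ⟨h.2, (h2 b h.2).1 h.1⟩, fun h => ⟨(h2 b h.1).2 h.2, h.1⟩⟩
  have h1 : (Ordinal.omega 1 : Ordinal.{0}) = (ℵ₁ : Cardinal.{0}).ord := by simp
  have h2 : NoMaxOrder (Ordinal.omega 1 : Ordinal.{0}).ToType := by
    rw [h1]
    infer_instance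
  refine key _ h1 h2 ?_
  rw [h1]
  exact ⟨A, hA⟩


/-- There is a map sending unbounded sets to unbounded sets if and only if there is a map in the
other direction sending cofinal sets to cofinal sets. -/
theorem tukey_iff {α β : Type} {s : β → β → Prop} {r : α → α → Prop} :
    TukeyLE s r ↔ Pool.Agent.H.MP_0d317a_lc.Tk s r := by
  constructor
  · rintro ⟨f, hf⟩
    have h1 : ∀ b : β, ∃ a : α, ∀ x, r a x → s b (f x) := by
      intro b
      by_contra h
      push Not at h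
      choose g hg using h
      obtain ⟨_, ⟨x, ⟨a, rfl⟩, rfl⟩, hx⟩ := hf (range g) (fun a => ⟨g a, ⟨a, rfl⟩, (hg a).1⟩) b
      exact (hg a).2 hx
    choose g hg using h1
    refine ⟨g, fun S hS => ?_⟩
    rintro ⟨b, hb⟩
    exact hS ⟨f b, fun x hx => hg x b (hb _ ⟨x, hx, rfl⟩)⟩
  · rintro ⟨g, hg⟩
    classical
    have h1 : ∀ a : α, ∃ b : β, ∀ x, r (g x) a → s x b := by
      intro a
      by_contra h
      push Not at h
      refine hg {x | r (g x) a} ?_ ⟨a, ?_⟩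
      · rintro ⟨b, hb⟩
        obtain ⟨x, hx, hx'⟩ := h b
        exact hx' (hb x hx)
      · rintro _ ⟨x, hx, rfl⟩
        exact hx
    choose f hf using h1
    refine ⟨f, fun C hC b => ?_⟩
    obtain ⟨c, hc, hc'⟩ := hC (g b)
    exact ⟨f c, ⟨c, hc, rfl⟩, hf c b hc'⟩

/-- **It is consistent that some `U <_T [𝔠]^{<ω}` does not have finitely generated Tukey
reductions.** -/
theorem result :
    (∃ (P : Type) (_ : Preorder P), Nonempty P ∧
      ∀ p : P, p ∈ OmegaOnePreserved P ∧ p ∈ DiamondHolds P) ∧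
    (Diamond → ∃ U : Ultrafilter ℕ, (∀ n, {n} ∉ U) ∧ TukeyLE (Incl U) FinIncl ∧
      ¬ TukeyLE FinIncl (Incl U) ∧ ¬ FinitelyGenerated U) := by
  refine ⟨?_, fun hd => ?_⟩
  · obtain ⟨P, i, hn, h⟩ := Pool.Agent.Helper639.ForceCH.exists_forcing
    exact ⟨P, i, hn, fun p => ⟨(h p).1, (h p).2.1⟩⟩
  · obtain ⟨U, h1, h2, h3, h4⟩ := Pool.Agent.H.MP_8dd142_lc.main (dia_of_diamond hd)
    exact ⟨U, h1, tukey_iff.2 h2, fun h => h3 (tukey_iff.1 h),
      fun h => h4 fun V f a b c => h V f ⟨a, b, c⟩⟩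

end Pool.Agent.Results.MP_849e4d_lc.ConsistentlyNotCharacterised
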